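import Pool.Agent.Helper68.Mat.Criterion

/-!
# MP_2bee9d_co: `f(n,P,d)/n^(d-1)` converges for almost all `d`-dimensional permutation patterns

For every `d = e + 1` all but a proportion `O(1/m)` of the `d`-dimensional `m × ⋯ × m` permutation
matrices `permPattern τ` have a convergent ratio, and so has every 0-1 matrix obtained from them by
inserting empty hyperplanes, merging adjacent hyperplanes and adding ones.  The definitions
`Contains`, `ex`, `ratio`, `permPattern` are in `Pool.Agent.Helper68.Mat.Defs`.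
-/

namespace Pool.Agent.Results.MP_2bee9d_co.AlmostAllPerm

open Filter Topology Pool.Agent.MatLim

theorem result :
    ∀ e : ℕ, ∃ C : ℕ, ∀ m : ℕ,
      {τ : Fin e → Equiv.Perm (Fin m) |
        ¬ ∀ (k : Fin (e + 1) → ℕ) (c : (l : Fin (e + 1)) → Fin m → Fin (k l))
            (P : Finset ((l : Fin (e + 1)) → Fin (k l))),
          (∀ l, Monotone (c l)) →
          (∀ l (j : Fin (k l)), ∃ i i', c l i ≤ j ∧ j ≤ c l i') →
          (∀ x ∈ permPattern τ, (fun l => c l (x l)) ∈ P) →
          Tendsto (ratio P) atTop (𝓝 (⨆ n : ℕ, ⨆ _ : 1 ≤ n, ratio P n))}.ncard * m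
        ≤ C * m.factorial ^ e := by
  classical
  intro e
  obtain ⟨C₂, hC₂⟩ := card_unsafe_mul_le e 2
  obtain ⟨C₃, hC₃⟩ := card_unsafe_mul_le e 3
  refine ⟨C₂ + C₃, fun m => ?_⟩
  set B₂ : Finset (Fin e → Equiv.Perm (Fin m)) :=
    Finset.univ.filter fun τ => ¬ Safe (zeroSum e 2) (permPattern τ) with hB₂
  set B₃ : Finset (Fin e → Equiv.Perm (Fin m)) :=
    Finset.univ.filter fun τ => ¬ Safe (zeroSum e 3) (permPattern τ) with hB₃
  have h2 := hC₂ m B₂ (fun τ hτ => (Finset.mem_filter.mp hτ).2)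
  have h3 := hC₃ m B₃ (fun τ hτ => (Finset.mem_filter.mp hτ).2)
  have hcard : Fintype.card (Fin e → Equiv.Perm (Fin m)) = m.factorial ^ e := by
    rw [Fintype.card_fun, Fintype.card_perm, Fintype.card_fin, Fintype.card_fin]
  rw [hcard] at h2 h3
  have hsub : {τ : Fin e → Equiv.Perm (Fin m) |
        ¬ ∀ (k : Fin (e + 1) → ℕ) (c : (l : Fin (e + 1)) → Fin m → Fin (k l))
            (P : Finset ((l : Fin (e + 1)) → Fin (k l))),
          (∀ l, Monotone (c l)) →
          (∀ l (j : Fin (k l)), ∃ i i', c l i ≤ j ∧ j ≤ c l i') →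
          (∀ x ∈ permPattern τ, (fun l => c l (x l)) ∈ P) →
          Tendsto (ratio P) atTop (𝓝 (⨆ n : ℕ, ⨆ _ : 1 ≤ n, ratio P n))} ⊆
      ((B₂ ∪ B₃ : Finset (Fin e → Equiv.Perm (Fin m))) :
        Set (Fin e → Equiv.Perm (Fin m))) := by
    intro τ hτ
    by_contra hcon
    rw [Finset.mem_coe, Finset.mem_union, hB₂, hB₃, Finset.mem_filter, Finset.mem_filter]
      at hcon
    push Not at hcon
    have hs2 := hcon.1 (Finset.mem_univ _)
    have hs3 := hcon.2 (Finset.mem_univ _)
    apply hτ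
    intro k c P hc hends hP
    exact criterion (spanning_image hends hP) (le_refl 2) (by norm_num) two_pow_ne_three_pow
      (by rw [card_zeroSum]; simp) (by rw [card_zeroSum]; simp)
      (safe_image hc hends hP hs2) (safe_image hc hends hP hs3)
  have hn := Set.ncard_le_ncard hsub (Finset.finite_toSet _)
  rw [Set.ncard_coe_finset] at hn
  calc _ ≤ (B₂ ∪ B₃).card * m := Nat.mul_le_mul_right _ hn
    _ ≤ (B₂.card + B₃.card) * m := Nat.mul_le_mul_right _ (Finset.card_union_le _ _)
    _ = B₂.card * m + B₃.card * m := by ring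
    _ ≤ C₂ * m.factorial ^ e + C₃ * m.factorial ^ e := Nat.add_le_add h2 h3
    _ = (C₂ + C₃) * m.factorial ^ e := by ring

end Pool.Agent.Results.MP_2bee9d_co.AlmostAllPerm
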