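import Pool.Agent.Helper68.Mat.Corner
import Pool.Agent.Helper68.Mat.CornerLim
import Pool.Agent.Helper68.Mat.Cheb

/-!
# MP_2bee9d_co: patterns with a one at a corner

For a `d`-dimensional pattern `P` with a one at a corner the lower limit of `f(n,P,d)/n^(d-1)` is at
least `2/(3√d)` times its supremum, and at least `3/4` times its supremum when `d = 3`.  The
definitions `Contains`, `ex`, `ratio`, `Spanning` are in `Pool.Agent.Helper68.Mat.Defs`, `CornerOne`
is in `Pool.Agent.Helper68.Mat.Corner`.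
-/

namespace Pool.Agent.Results.MP_2bee9d_co.CornerRatio

open Filter Topology Pool.Agent.MatLim

theorem result :
    (∀ (d : ℕ) (k : Fin d → ℕ) (P : Finset ((i : Fin d) → Fin (k i))), 1 ≤ d →
      Spanning P → CornerOne P → ∀ m : ℕ, 1 ≤ m →
        ENNReal.ofReal (2 / (3 * Real.sqrt d)) * ratio P m ≤ liminf (ratio P) atTop) ∧
    (∀ (k : Fin 3 → ℕ) (P : Finset ((i : Fin 3) → Fin (k i))),
      Spanning P → CornerOne P → ∀ m : ℕ, 1 ≤ m →
        ENNReal.ofReal (3 / 4) * ratio P m ≤ liminf (ratio P) atTop) := by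
  refine ⟨?_, ?_⟩
  · intro d k P hd hsp hco m hm
    apply liminf_of_density (fun _ _ h => ex_mono hsp h) _ m hm
    intro ε hε
    obtain ⟨K₀, hK₀⟩ := exists_nat_gt (1 / ε)
    refine ⟨max K₀ 1, fun K hK n => ?_⟩
    have hK1 : 1 ≤ K := (le_max_right _ _).trans hK
    have hKK : (K₀ : ℝ) ≤ K := by exact_mod_cast (le_max_left _ _).trans hK
    have hKpos : (0 : ℝ) < K := by exact_mod_cast hK1
    have hd0 : (1 : ℝ) ≤ d := by exact_mod_cast hd
    set r : ℝ := Real.sqrt d with hr
    have hr1 : 1 ≤ r := by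
      rw [hr]
      exact Real.one_le_sqrt.mpr hd0
    have hr0 : 0 < r := by linarith
    have hεK : 1 < ε * K := by
      have h1 : 1 / ε < K := hK₀.trans_le hKK
      rw [div_lt_iff₀ hε] at h1
      linarith
    obtain ⟨s, hs⟩ := exists_level d K hd hK1
    set c : ℝ := ((Finset.univ.filter fun b : Fin d → Fin K => ∑ i, (b i : ℕ) = s).card : ℝ)
      with hc
    rw [← hr] at hs
    have hblock := corner_block hsp hco K s n
    have hblock' : c * (ex P n : ℝ) ≤ ex P (K * n) := by
      rw [hc]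
      exact_mod_cast hblock
    refine le_trans (mul_le_mul_of_nonneg_right ?_ (Nat.cast_nonneg _)) hblock'
    have hpos : 0 < r * K + 1 := by positivity
    refine le_of_mul_le_mul_right (le_trans ?_ hs) hpos
    obtain ⟨e, rfl⟩ : ∃ e, d = e + 1 := ⟨d - 1, by omega⟩
    have hKe : (0 : ℝ) < (K : ℝ) ^ e := by positivity
    have hsub : e + 1 - 1 = e := by omega
    rw [hsub]
    have h1 : (2 / (3 * r) - ε) * (r * K + 1) ≤ 2 / 3 * K := by
      have h2 : (2 / (3 * r) - ε) * (r * K + 1)
          = 2 / 3 * K + (2 / (3 * r) - ε * (r * K)) - ε := by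
        field_simp
        ring
      rw [h2]
      have h3 : 2 / (3 * r) ≤ 1 := by
        rw [div_le_one (by positivity)]
        linarith
      have h4 : 1 ≤ ε * (r * K) := by
        calc (1 : ℝ) ≤ ε * K := hεK.le
          _ ≤ ε * (r * K) := by
            apply mul_le_mul_of_nonneg_left _ hε.le
            nlinarith
      linarith
    calc (2 / (3 * r) - ε) * (K : ℝ) ^ e * (r * K + 1)
        = (K : ℝ) ^ e * ((2 / (3 * r) - ε) * (r * K + 1)) := by ring
      _ ≤ (K : ℝ) ^ e * (2 / 3 * K) := mul_le_mul_of_nonneg_left h1 hKe.le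
      _ = 2 / 3 * (K : ℝ) ^ (e + 1) := by ring
  · intro k P hsp hco m hm
    apply liminf_of_density (fun _ _ h => ex_mono hsp h) _ m hm
    intro ε hε
    obtain ⟨K₀, hK₀⟩ := exists_nat_gt (3 / (2 * ε))
    refine ⟨max K₀ 1, fun K hK n => ?_⟩
    have hK1 : 1 ≤ K := (le_max_right _ _).trans hK
    have hKK : (K₀ : ℝ) ≤ K := by exact_mod_cast (le_max_left _ _).trans hK
    have hKpos : (1 : ℝ) ≤ K := by exact_mod_cast hK1
    have hεK : 3 / 2 < ε * K := by
      have h1 : 3 / (2 * ε) < K := hK₀.trans_le hKK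
      rw [div_lt_iff₀ (by positivity)] at h1
      linarith
    set h : ℕ := K / 2 with hh
    have h2h : 2 * h ≤ K := Nat.mul_div_le K 2
    have h2h' : K ≤ 2 * h + 1 := by omega
    have h3 := card_level_three h
    have hblock := corner_block hsp hco (2 * h) (3 * h - 2) n
    have h4 : 3 * h ^ 2 * ex P n ≤ ex P (K * n) :=
      (Nat.mul_le_mul_right _ h3).trans (hblock.trans
        (ex_mono hsp (Nat.mul_le_mul_right _ h2h)))
    have h5 : (3 * (h : ℝ) ^ 2) * ex P n ≤ ex P (K * n) := by exact_mod_cast h4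
    refine le_trans (mul_le_mul_of_nonneg_right ?_ (Nat.cast_nonneg _)) h5
    have h6 : (K : ℝ) ≤ 2 * h + 1 := by exact_mod_cast h2h'
    have h7 : (3 - 1 : ℕ) = 2 := rfl
    rw [h7]
    have h8 : ((K : ℝ) - 1) ^ 2 ≤ (2 * (h : ℝ)) ^ 2 :=
      pow_le_pow_left₀ (by linarith) (by linarith) 2
    nlinarith

end Pool.Agent.Results.MP_2bee9d_co.CornerRatio
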