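import Pool.Agent.MatPush.Main

/-!
# MP_2bee9d_co: noncrossing patterns and all `2 × ⋯ × 2` patterns

The definitions `Contains`, `ex`, `ratio` are in `Pool.Agent.Helper68.Mat.Defs`.
-/

set_option autoImplicit false

namespace Pool.Agent.Results.MP_2bee9d_co.NoncrossingPatterns

open Filter Topology Pool.Agent.MatLim Pool.Agent.MatPush

variable {d : ℕ} {k : Fin d → ℕ}

/-- No two cuts of two different coordinates cross: for `i ≠ j` and thresholds `s`, `t` at least one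
of the four quadrants contains no one of `P`. -/
def Noncrossing (P : Finset ((i : Fin d) → Fin (k i))) : Prop :=
  ∀ i j : Fin d, i ≠ j → ∀ s t : ℕ,
    ¬ ((∃ x ∈ P, (x i : ℕ) < s ∧ (x j : ℕ) < t) ∧ (∃ x ∈ P, (x i : ℕ) < s ∧ t ≤ (x j : ℕ)) ∧
      (∃ x ∈ P, s ≤ (x i : ℕ) ∧ (x j : ℕ) < t) ∧ (∃ x ∈ P, s ≤ (x i : ℕ) ∧ t ≤ (x j : ℕ)))

/-- The projection of `P` to some two coordinates `i ≠ j` contains the four corners
`(a, c)`, `(a, e)`, `(b, c)`, `(b, e)` of a rectangle. -/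
def HasRectangle (P : Finset ((i : Fin d) → Fin (k i))) : Prop :=
  ∃ i j : Fin d, i ≠ j ∧ ∃ (a b : Fin (k i)) (c e : Fin (k j)), a < b ∧ c < e ∧
    (∃ x ∈ P, x i = a ∧ x j = c) ∧ (∃ x ∈ P, x i = a ∧ x j = e) ∧
    (∃ x ∈ P, x i = b ∧ x j = c) ∧ (∃ x ∈ P, x i = b ∧ x j = e)

theorem noncr_of {P : Finset ((i : Fin d) → Fin (k i))} (h : Noncrossing P) : Noncr (pos P) := by
  rintro i j hij s t ⟨⟨x1, hx1, h1⟩, ⟨x2, hx2, h2⟩, ⟨x3, hx3, h3⟩, ⟨x4, hx4, h4⟩⟩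
  obtain ⟨y1, hy1, rfl⟩ := Finset.mem_image.1 hx1
  obtain ⟨y2, hy2, rfl⟩ := Finset.mem_image.1 hx2
  obtain ⟨y3, hy3, rfl⟩ := Finset.mem_image.1 hx3
  obtain ⟨y4, hy4, rfl⟩ := Finset.mem_image.1 hx4
  exact h i j hij s t ⟨⟨y1, hy1, h1⟩, ⟨y2, hy2, h2⟩, ⟨y3, hy3, h3⟩, ⟨y4, hy4, h4⟩⟩

theorem two_cases {P : Finset ((i : Fin d) → Fin (k i))} (hk : ∀ i, k i ≤ 2)
    (hN : ¬ Noncrossing P) : HasRectangle P := by
  unfold Noncrossing at hN
  push Not at hN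
  obtain ⟨i, j, hij, s, t, ⟨y1, hy1, h11, h12⟩, ⟨y2, hy2, h21, h22⟩, ⟨y3, hy3, h31, h32⟩,
    ⟨y4, hy4, h41, h42⟩⟩ := hN
  have e1 := (y4 i).2
  have e2 := hk i
  have e3 := (y4 j).2
  have e4 := hk j
  have a1 := (y1 i).2
  have a2 := (y2 i).2
  have a3 := (y3 i).2
  have b1 := (y1 j).2
  have b2 := (y2 j).2
  have b3 := (y3 j).2
  refine ⟨i, j, hij, y1 i, y4 i, y1 j, y4 j, ?_, ?_, ⟨y1, hy1, rfl, rfl⟩, ⟨y2, hy2, ?_, ?_⟩,
    ⟨y3, hy3, ?_, ?_⟩, ⟨y4, hy4, rfl, rfl⟩⟩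
  · exact Fin.lt_def.2 (by omega)
  · exact Fin.lt_def.2 (by omega)
  · exact Fin.ext (by omega)
  · exact Fin.ext (by omega)
  · exact Fin.ext (by omega)
  · exact Fin.ext (by omega)

/-- Let the nonzero pattern `P` be noncrossing, or have a rectangle, or have all sides at most two.
Then either `P` is noncrossing, `f(n, P, d) = n ^ d - ∏ max (n - k_i + 1) 0` for all `n`, and so
`f(n, P, d) / n ^ (d - 1)` tends to `∑ (k_i - 1)`, or `P` is not noncrossing and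
`f(n, P, d) / n ^ (d - 1)` tends to infinity. -/
theorem result : ∀ (d : ℕ) (k : Fin d → ℕ) (P : Finset ((i : Fin d) → Fin (k i))), P.Nonempty →
    (Noncrossing P ∨ HasRectangle P ∨ ∀ i, k i ≤ 2) →
    (Noncrossing P ∧ (∀ n : ℕ, ex P n + ∏ i, (n - (k i - 1)) = n ^ d) ∧
      Tendsto (ratio P) atTop (𝓝 ((∑ i, (k i - 1) : ℕ) : ENNReal))) ∨
    (¬ Noncrossing P ∧ Tendsto (ratio P) atTop (𝓝 ⊤)) := by
  intro d k P hne hcase
  by_cases hN : Noncrossing P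
  · exact Or.inl ⟨hN, noncr_main P hne (noncr_of hN)⟩
  · refine Or.inr ⟨hN, ?_⟩
    have hR : HasRectangle P := by
      rcases hcase with h | h | h
      · exact absurd h hN
      · exact h
      · exact two_cases h hN
    obtain ⟨i, j, hij, a, b, c, e, hab, hce, h1, h2, h3, h4⟩ := hR
    exact rect_top P i j hij a b c e hab hce h1 h2 h3 h4

end Pool.Agent.Results.MP_2bee9d_co.NoncrossingPatterns
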