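import Pool.Agent.Helper68.Mat.Criterion

/-!
# MP_2bee9d_co: a criterion for the convergence of `f(n,P,d)/n^(d-1)`

Full safe block sets at two multiplicatively independent scales force convergence, the limit being
the supremum.  The definitions `Contains`, `ex`, `ratio`, `Spanning`, `Safe` are in
`Pool.Agent.Helper68.Mat.Defs`.
-/

namespace Pool.Agent.Results.MP_2bee9d_co.TwoScales

open Filter Topology Pool.Agent.MatLim

theorem result :
    ∀ (d : ℕ) (k : Fin d → ℕ) (P : Finset ((i : Fin d) → Fin (k i))), Spanning P →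
      ∀ K₁ K₂ : ℕ, 2 ≤ K₁ → 2 ≤ K₂ → (∀ a b : ℕ, 0 < a → K₁ ^ a ≠ K₂ ^ b) →
      ∀ (S₁ : Finset (Fin d → Fin K₁)) (S₂ : Finset (Fin d → Fin K₂)),
        K₁ ^ (d - 1) ≤ S₁.card → K₂ ^ (d - 1) ≤ S₂.card → Safe S₁ P → Safe S₂ P →
        Tendsto (ratio P) atTop (𝓝 (⨆ n : ℕ, ⨆ _ : 1 ≤ n, ratio P n)) := by
  intro d k P hP K₁ K₂ h₁ h₂ hind S₁ S₂ hc₁ hc₂ hS₁ hS₂
  exact criterion hP h₁ h₂ hind hc₁ hc₂ hS₁ hS₂

end Pool.Agent.Results.MP_2bee9d_co.TwoScales
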